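import Mathlib

/-!
# The cells around a bad square

`N1`, `N2` are matroids on a finite type whose ground sets are everything.  `X` is a family of sets
closed under single exchanges between common bases.  If `G + a + a'` is a common basis in `X` and
`G + d + d'` is a common basis not in `X`, and every element of a common basis can be exchanged,
then the parallel classes over `G` form four cells.
-/

open Set

namespace Pool.Agent.H10TE

variable {α : Type*}

/-- A common basis. -/
def CB (N1 N2 : Matroid α) (A : Set α) : Prop := N1.IsBase A ∧ N2.IsBase A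

/-- `X` is closed under single exchanges between common bases. -/
def Clo (N1 N2 : Matroid α) (X : Set (Set α)) : Prop :=
  ∀ (S : Set α) (x y : α), x ∉ S → y ∉ S → CB N1 N2 (insert x S) → CB N1 N2 (insert y S) →
    insert x S ∈ X → insert y S ∈ X

/-- Every element of a common basis can be exchanged for an element outside. -/
def Exc (N1 N2 : Matroid α) : Prop :=
  ∀ (S : Set α) (x : α), x ∉ S → CB N1 N2 (insert x S) →
    ∃ e, e ∉ S ∧ e ≠ x ∧ CB N1 N2 (insert e S)

theorem Clo.compl {N1 N2 : Matroid α} {X : Set (Set α)} (h : Clo N1 N2 X) : Clo N1 N2 Xᶜ := by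
  intro S x y hx hy h1 h2 h3 h4
  exact h3 (h S y x hy hx h2 h1 h4)

theorem Clo.symm {N1 N2 : Matroid α} {X : Set (Set α)} (h : Clo N1 N2 X) : Clo N2 N1 X := by
  intro S x y hx hy h1 h2
  exact h S x y hx hy ⟨h1.2, h1.1⟩ ⟨h2.2, h2.1⟩

theorem Exc.symm {N1 N2 : Matroid α} (h : Exc N1 N2) : Exc N2 N1 := by
  intro S x hx h1
  obtain ⟨e, he1, he2, he3⟩ := h S x hx ⟨h1.2, h1.1⟩
  exact ⟨e, he1, he2, he3.2, he3.1⟩

theorem isBase_of_ncard [Finite α] {M : Matroid α} {A I : Set α} (hA : M.IsBase A)
    (hI : M.Indep I) (hc : I.ncard = A.ncard) : M.IsBase I := by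
  obtain ⟨B, hB, hIB⟩ := hI.exists_isBase_superset
  have h := hB.ncard_eq_ncard_of_isBase hA
  have := Set.eq_of_subset_of_ncard_le hIB (by omega) (Set.toFinite _)
  rwa [this]

/-- Two elements over `G` which are not parallel give a basis. -/
theorem base_of [Finite α] {N : Matroid α} (hE : N.E = univ) {G : Set α} {a a' x y : α}
    (ha : a ∉ G) (ha' : a' ∉ G) (haa : a ≠ a')
    (hA : N.IsBase (insert a (insert a' G)))
    (hx : x ∉ N.closure G) (hy : y ∉ N.closure (insert x G)) :
    N.IsBase (insert y (insert x G)) := by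
  have hG : N.Indep G := hA.indep.subset (by
    intro z hz; exact Or.inr (Or.inr hz))
  have hxG : x ∉ G := fun h => hx (N.mem_closure_of_mem h (by rw [hE]; exact subset_univ _))
  have hyG : y ∉ insert x G := fun h => hy (N.mem_closure_of_mem h (by
    rw [hE]; exact subset_univ _))
  have h1 : N.Indep (insert x G) := (hG.insert_indep_iff_of_notMem hxG).2
    ⟨by rw [hE]; exact mem_univ _, hx⟩
  have h2 : N.Indep (insert y (insert x G)) := (h1.insert_indep_iff_of_notMem hyG).2
    ⟨by rw [hE]; exact mem_univ _, hy⟩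
  refine isBase_of_ncard hA h2 ?_
  have haG : a ∉ insert a' G := by
    rintro (h | h)
    · exact haa h
    · exact ha h
  rw [Set.ncard_insert_of_notMem hyG (Set.toFinite _),
    Set.ncard_insert_of_notMem hxG (Set.toFinite _),
    Set.ncard_insert_of_notMem haG (Set.toFinite _),
    Set.ncard_insert_of_notMem ha' (Set.toFinite _)]

theorem notMem_of_base {N : Matroid α} {S : Set α} {y : α} (h : N.IsBase (insert y S))
    (hy : y ∉ S) : y ∉ N.closure S :=
  (((h.indep.subset (Set.subset_insert y S)).insert_indep_iff_of_notMem hy).1 h.indep).2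

theorem congr_cl {N : Matroid α} {G : Set α} {x y : α} (h1 : x ∈ N.closure (insert y G))
    (h2 : x ∉ N.closure G) : N.closure (insert x G) = N.closure (insert y G) :=
  N.closure_insert_congr ⟨h1, h2⟩

theorem mem_closure_of_two {M : Matroid α} {G : Set α} {a b e : α} (hab : a ≠ b)
    (hI : M.Indep (insert a (insert b G)))
    (h1 : e ∈ M.closure (insert a G)) (h2 : e ∈ M.closure (insert b G)) (hb : b ∉ G) :
    e ∈ M.closure G := by
  have hu : insert a G ∪ insert b G = insert a (insert b G) := by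
    ext z; simp only [Set.mem_union, Set.mem_insert_iff]; tauto
  have hi : insert a G ∩ insert b G = G := by
    ext z
    simp only [Set.mem_inter_iff, Set.mem_insert_iff]
    constructor
    · rintro ⟨rfl | h, rfl | h'⟩
      · exact absurd rfl hab
      · exact h'
      · exact h
      · exact h
    · intro h; exact ⟨Or.inr h, Or.inr h⟩
  have h3 := Matroid.Indep.closure_inter_eq_inter_closure (M := M) (I := insert a G)
    (J := insert b G) (by rw [hu]; exact hI)
  rw [hi] at h3
  rw [h3]
  exact ⟨h1, h2⟩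

/-- The hypotheses on a square. -/
structure Sq (N1 N2 : Matroid α) (X : Set (Set α)) (G : Set α) (a a' d d' : α) : Prop where
  E1 : N1.E = univ
  E2 : N2.E = univ
  clo : Clo N1 N2 X
  exc : Exc N1 N2
  ha : a ∉ G
  ha' : a' ∉ G
  hd : d ∉ G
  hd' : d' ∉ G
  haa : a ≠ a'
  hdd : d ≠ d'
  hA : CB N1 N2 (insert a (insert a' G))
  hD : CB N1 N2 (insert d (insert d' G))
  hAX : insert a (insert a' G) ∈ X
  hDX : insert d (insert d' G) ∉ X

namespace Sq

variable {N1 N2 : Matroid α} {X : Set (Set α)} {G : Set α} {a a' d d' : α}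

theorem symm (h : Sq N1 N2 X G a a' d d') : Sq N2 N1 X G a a' d d' :=
  ⟨h.E2, h.E1, h.clo.symm, h.exc.symm, h.ha, h.ha', h.hd, h.hd', h.haa, h.hdd,
    ⟨h.hA.2, h.hA.1⟩, ⟨h.hD.2, h.hD.1⟩, h.hAX, h.hDX⟩

theorem swapA (h : Sq N1 N2 X G a a' d d') : Sq N1 N2 X G a' a d d' :=
  ⟨h.E1, h.E2, h.clo, h.exc, h.ha', h.ha, h.hd, h.hd', h.haa.symm, h.hdd,
    by rw [Set.insert_comm]; exact h.hA, h.hD, by rw [Set.insert_comm]; exact h.hAX, h.hDX⟩

theorem swapD (h : Sq N1 N2 X G a a' d d') : Sq N1 N2 X G a a' d' d :=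
  ⟨h.E1, h.E2, h.clo, h.exc, h.ha, h.ha', h.hd', h.hd, h.haa, h.hdd.symm,
    h.hA, by rw [Set.insert_comm]; exact h.hD, h.hAX, by rw [Set.insert_comm]; exact h.hDX⟩

theorem swap (h : Sq N1 N2 X G a a' d d') : Sq N1 N2 Xᶜ G d d' a a' :=
  ⟨h.E1, h.E2, h.clo.compl, h.exc, h.hd, h.hd', h.ha, h.ha', h.hdd, h.haa,
    h.hD, h.hA, h.hDX, fun h' => h' h.hAX⟩

/-- `a` is not in the closure of `G + a'`. -/
theorem na (h : Sq N1 N2 X G a a' d d') : a ∉ N1.closure (insert a' G) := by
  refine notMem_of_base h.hA.1 ?_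
  rintro (h' | h')
  · exact h.haa h'
  · exact h.ha h'

theorem nla (h : Sq N1 N2 X G a a' d d') : a ∉ N1.closure G := fun h' =>
  h.na (N1.closure_subset_closure (Set.subset_insert _ _) h')

theorem nG (h : Sq N1 N2 X G a a' d d') {z : α} (hz : z ∉ N1.closure G) : z ∉ G := fun h' =>
  hz (N1.mem_closure_of_mem h' (by rw [h.E1]; exact subset_univ _))

theorem a_ne_d (h : Sq N1 N2 X G a a' d d') : a ≠ d := by
  rintro rfl
  apply h.hDX
  have h1 := h.clo (insert a G) a' d' (by
    rintro (h' | h')
    · exact h.haa h'.symm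
    · exact h.ha' h') (by
    rintro (h' | h')
    · exact h.hdd h'.symm
    · exact h.hd' h')
  rw [Set.insert_comm a' a, Set.insert_comm d' a] at h1
  exact h1 h.hA h.hD h.hAX

/-- `d` is parallel to `a` in one of the two matroids. -/
theorem mix [Finite α] (h : Sq N1 N2 X G a a' d d') :
    d ∈ N1.closure (insert a G) ∨ d ∈ N2.closure (insert a G) := by
  by_contra hcon
  push Not at hcon
  have h1 : CB N1 N2 (insert d (insert a G)) :=
    ⟨base_of h.E1 h.ha h.ha' h.haa h.hA.1 h.nla hcon.1,
      base_of h.E2 h.ha h.ha' h.haa h.hA.2 h.symm.nla hcon.2⟩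
  have hda : d ∉ insert a G := by
    rintro (h' | h')
    · exact h.a_ne_d h'.symm
    · exact h.hd h'
  have h2 : insert d (insert a G) ∈ X := by
    have h3 := h.clo (insert a G) a' d (by
      rintro (h' | h')
      · exact h.haa h'.symm
      · exact h.ha' h') hda
    rw [Set.insert_comm a' a] at h3
    exact h3 h.hA h1 h.hAX
  apply h.hDX
  have h4 := h.clo (insert d G) a d' (by
    rintro (h' | h')
    · exact h.a_ne_d h'
    · exact h.ha h') (by
    rintro (h' | h')
    · exact h.hdd h'.symm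
    · exact h.hd' h')
  rw [Set.insert_comm a d, Set.insert_comm d' d] at h4
  exact h4 h1 h.hD h2

/-- If `d` is parallel to `a` in `N1` then `d` is parallel to `a'` in `N2`. -/
theorem type2 [Finite α] (h : Sq N1 N2 X G a a' d d') (h1 : d ∈ N1.closure (insert a G)) :
    d ∈ N2.closure (insert a' G) := by
  rcases h.swapA.mix with h2 | h2
  · exact absurd (mem_closure_of_two h.haa h.hA.1.indep h1 h2 h.ha') h.swap.nla
  · exact h2

theorem type3 [Finite α] (h : Sq N1 N2 X G a a' d d') (h1 : d ∈ N1.closure (insert a G)) :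
    d' ∈ N2.closure (insert a G) := by
  rcases h.swapD.mix with h2 | h2
  · exfalso
    have h3 := congr_cl h1 h.swap.nla
    rw [← h3] at h2
    exact h.swap.swapA.na h2
  · exact h2

theorem type4 [Finite α] (h : Sq N1 N2 X G a a' d d') (h1 : d ∈ N1.closure (insert a G)) :
    d' ∈ N1.closure (insert a' G) := by
  have h2 := h.type3 h1
  exact h.symm.swapD.type2 h2

/-- An element `e` such that `G + a' + e` is a common basis is parallel to `a` in both. -/
theorem cell [Finite α] (h : Sq N1 N2 X G a a' d d') (h1 : d ∈ N1.closure (insert a G)) {e : α}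
    (he : e ∉ insert a' G) (hB : CB N1 N2 (insert e (insert a' G))) :
    e ∈ N1.closure (insert a G) ∧ e ∈ N2.closure (insert a G) := by
  have hne1 : e ∉ N1.closure (insert a' G) := notMem_of_base hB.1 he
  have hne2 : e ∉ N2.closure (insert a' G) := notMem_of_base hB.2 he
  have hX : insert e (insert a' G) ∈ X := h.clo _ a e (by
    rintro (h' | h')
    · exact h.haa h'
    · exact h.ha h') he h.hA hB h.hAX
  have key : ∀ f f', (f = d ∧ f' = d' ∨ f = d' ∧ f' = d) → e ∉ N1.closure (insert f G) →
      e ∉ N2.closure (insert f G) → False := by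
    intro f f' hf h2 h3
    have hf0 : Sq N1 N2 X G a a' f f' := by
      rcases hf with ⟨rfl, rfl⟩ | ⟨rfl, rfl⟩
      · exact h
      · exact h.swapD
    have h4 : CB N1 N2 (insert e (insert f G)) :=
      ⟨base_of h.E1 h.ha h.ha' h.haa h.hA.1 hf0.swap.nla h2,
        base_of h.E2 h.ha h.ha' h.haa h.hA.2 hf0.symm.swap.nla h3⟩
    have heG : e ∉ G := fun h' => he (Or.inr h')
    have hef : e ≠ f := by
      rintro rfl
      exact h2 (N1.mem_closure_of_mem (Or.inl rfl) (by rw [h.E1]; exact subset_univ _))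
    have h5 := h.clo (insert e G) a' f (by
      rintro (h' | h')
      · exact he (Or.inl h'.symm)
      · exact h.ha' h') (by
      rintro (h' | h')
      · exact hef h'.symm
      · exact hf0.hd h')
    rw [Set.insert_comm a' e, Set.insert_comm f e] at h5
    have h6 := h5 hB h4 hX
    have h7 := h.clo (insert f G) e f' (by
      rintro (h' | h')
      · exact hef h'
      · exact heG h') (by
      rintro (h' | h')
      · exact hf0.hdd h'.symm
      · exact hf0.hd' h')
    rw [Set.insert_comm f' f] at h7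
    exact hf0.hDX (h7 h4 hf0.hD h6)
  have c1 : N1.closure (insert d G) = N1.closure (insert a G) := congr_cl h1 h.swap.nla
  have c2 : N2.closure (insert d G) = N2.closure (insert a' G) :=
    congr_cl (h.type2 h1) h.symm.swap.nla
  have c3 : N2.closure (insert d' G) = N2.closure (insert a G) :=
    congr_cl (h.type3 h1) h.symm.swapD.swap.nla
  have c4 : N1.closure (insert d' G) = N1.closure (insert a' G) :=
    congr_cl (h.type4 h1) h.swapD.swap.nla
  constructor
  · by_contra h2
    exact key d d' (Or.inl ⟨rfl, rfl⟩) (by rw [c1]; exact h2) (by rw [c2]; exact hne2)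
  · by_contra h2
    exact key d' d (Or.inr ⟨rfl, rfl⟩) (by rw [c4]; exact hne1) (by rw [c3]; exact h2)

/-- The second element of the cell of `a`. -/
theorem exists_bar [Finite α] (h : Sq N1 N2 X G a a' d d') (h1 : d ∈ N1.closure (insert a G)) :
    ∃ b, b ≠ a ∧ b ∉ G ∧ b ∈ N1.closure (insert a G) ∧ b ∈ N2.closure (insert a G) ∧
      b ∉ N1.closure G ∧ b ∉ N2.closure G ∧ Sq N1 N2 X G b a' d d' := by
  obtain ⟨b, hb1, hb2, hb3⟩ := h.exc (insert a' G) a (by
    rintro (h' | h')
    · exact h.haa h'
    · exact h.ha h') h.hA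
  obtain ⟨hb4, hb5⟩ := h.cell h1 hb1 hb3
  have hbG : b ∉ G := fun h' => hb1 (Or.inr h')
  have hsq : Sq N1 N2 X G b a' d d' :=
    ⟨h.E1, h.E2, h.clo, h.exc, hbG, h.ha', h.hd, h.hd', fun h' => hb1 (Or.inl h'), h.hdd,
      hb3, h.hD, h.clo _ a b (by
        rintro (h' | h')
        · exact h.haa h'
        · exact h.ha h') hb1 h.hA hb3 h.hAX, h.hDX⟩
  exact ⟨b, hb2, hbG, hb4, hb5, hsq.nla, hsq.symm.nla, hsq⟩

end Sq

end Pool.Agent.H10TE
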