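import Pool.Agent.H10TE.Cells

/-!
# The square of complements
-/

open Set

namespace Pool.Agent.H10TE

variable {α : Type*}

/-- Orthogonality of a flat of `M` and a flat of the dual. -/
theorem orth {M : Matroid α} (hE : M.E = univ) {S T : Set α} {x : α}
    (h : ∀ z, z ≠ x → z ∈ S ∨ z ∈ T) (hx : x ∉ S) :
    x ∈ M.closure S ∨ x ∈ M✶.closure T := by
  by_contra hcon
  push Not at hcon
  obtain ⟨h1, h2⟩ := hcon
  apply h2
  obtain ⟨J, hJ⟩ := M.exists_isBasis S (by rw [hE]; exact subset_univ _)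
  have hxJ : x ∉ J := fun h' => hx (hJ.subset h')
  have h3 : M.Indep (insert x J) := by
    refine (hJ.indep.insert_indep_iff_of_notMem hxJ).2 ⟨by rw [hE]; exact mem_univ _, ?_⟩
    rw [hJ.closure_eq_closure]
    exact h1
  obtain ⟨B, hB, hJB⟩ := h3.exists_isBase_superset
  have h4 : B ∩ S = J := by
    refine (hJ.eq_of_subset_indep (hB.indep.subset inter_subset_left) ?_ inter_subset_right).symm
    intro z hz
    exact ⟨hJB (Or.inr hz), hJ.subset hz⟩
  have h5 : M.IsBasis (B ∩ S) S := by rw [h4]; exact hJ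
  have h6 := (hB.inter_isBasis_iff_compl_inter_isBasis_dual
    (by rw [hE]; exact subset_univ _)).1 h5
  rw [hE] at h6
  have h7 : x ∈ M✶.closure ((univ \ B) ∩ (univ \ S)) := by
    rw [h6.closure_eq_closure]
    exact M✶.mem_closure_of_mem ⟨mem_univ _, hx⟩
      (by rw [Matroid.dual_ground, hE]; exact subset_univ _)
  refine M✶.closure_subset_closure ?_ h7
  rintro z ⟨hz1, hz2⟩
  rcases h z (by rintro rfl; exact hz1.2 (hJB (Or.inl rfl))) with h8 | h8
  · exact absurd h8 hz2.2
  · exact h8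

/-- Orthogonality for closures. -/
theorem orth' {M : Matroid α} (hE : M.E = univ) {S T : Set α} {x : α}
    (h : ∀ z, z ≠ x → z ∈ M.closure S ∨ z ∈ M✶.closure T) :
    x ∈ M.closure S ∨ x ∈ M✶.closure T := by
  by_cases hx : x ∈ M.closure S
  · exact Or.inl hx
  · have := orth hE h hx
    rwa [Matroid.closure_closure, Matroid.closure_closure] at this

theorem CB.compl {M : Matroid α} (hE : M.E = univ) {A : Set α} (h : CB M M✶ A) :
    CB M M✶ Aᶜ := by
  have h1 : M✶.IsBase Aᶜ := by
    have := h.1.compl_isBase_dual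
    rwa [hE, ← compl_eq_univ_sdiff] at this
  have h2 : M.IsBase Aᶜ := by
    have := h.2.compl_isBase_of_dual
    rwa [hE, ← compl_eq_univ_sdiff] at this
  exact ⟨h2, h1⟩

/-- The family of complements. -/
def Co (X : Set (Set α)) : Set (Set α) := {U | Uᶜ ∈ X}

theorem Clo.co {M : Matroid α} (hE : M.E = univ) {X : Set (Set α)} (h : Clo M M✶ X) :
    Clo M M✶ (Co X) := by
  intro S x y hx hy h1 h2 h3
  by_cases hxy : x = y
  · subst hxy
    exact h3
  have e1 : insert y (insert x (insert y S))ᶜ = (insert x S)ᶜ := by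
    ext z
    simp only [mem_insert_iff, mem_compl_iff, not_or]
    constructor
    · rintro (rfl | h')
      · exact ⟨fun h' => hxy h'.symm, hy⟩
      · exact ⟨h'.1, h'.2.2⟩
    · rintro ⟨h4, h5⟩
      by_cases hzy : z = y
      · exact Or.inl hzy
      · exact Or.inr ⟨h4, hzy, h5⟩
  have e2 : insert x (insert x (insert y S))ᶜ = (insert y S)ᶜ := by
    ext z
    simp only [mem_insert_iff, mem_compl_iff, not_or]
    constructor
    · rintro (rfl | h')
      · exact ⟨hxy, hx⟩
      · exact ⟨h'.2.1, h'.2.2⟩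
    · rintro ⟨h4, h5⟩
      by_cases hzx : z = x
      · exact Or.inl hzx
      · exact Or.inr ⟨hzx, h4, h5⟩
  have h4 := h (insert x (insert y S))ᶜ y x (fun h' => h' (Or.inr (Or.inl rfl)))
    (fun h' => h' (Or.inl rfl))
  rw [e1, e2] at h4
  exact h4 (h1.compl hE) (h2.compl hE) h3

/-- The fourth corner. -/
def Gc (G : Set α) (a a' d d' : α) : Set α :=
  {z | z ∉ G ∧ z ≠ a ∧ z ≠ a' ∧ z ≠ d ∧ z ≠ d'}

namespace Sq

variable {M : Matroid α} {X : Set (Set α)} {G : Set α} {a a' d d' : α}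

/-- The square of complements. -/
theorem co (h : Sq M M✶ X G a a' d d') : Sq M M✶ (Co X) (Gc G a a' d d') d d' a a' := by
  have n1 : a ≠ d := h.a_ne_d
  have n2 : a ≠ d' := h.swapD.a_ne_d
  have n3 : a' ≠ d := h.swapA.a_ne_d
  have n4 : a' ≠ d' := h.swapA.swapD.a_ne_d
  have n5 := h.haa
  have n6 := h.hdd
  have e1 : insert d (insert d' (Gc G a a' d d')) = (insert a (insert a' G))ᶜ := by
    ext z
    simp only [Gc, mem_insert_iff, mem_compl_iff, not_or, mem_ofPred_eq]
    constructor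
    · rintro (rfl | rfl | h')
      · exact ⟨n1.symm, n3.symm, h.hd⟩
      · exact ⟨n2.symm, n4.symm, h.hd'⟩
      · exact ⟨h'.2.1, h'.2.2.1, h'.1⟩
    · rintro ⟨h4, h5, h6⟩
      by_cases hz1 : z = d
      · exact Or.inl hz1
      · by_cases hz2 : z = d'
        · exact Or.inr (Or.inl hz2)
        · exact Or.inr (Or.inr ⟨h6, h4, h5, hz1, hz2⟩)
  have e2 : insert a (insert a' (Gc G a a' d d')) = (insert d (insert d' G))ᶜ := by
    ext z
    simp only [Gc, mem_insert_iff, mem_compl_iff, not_or, mem_ofPred_eq]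
    constructor
    · rintro (rfl | rfl | h')
      · exact ⟨n1, n2, h.ha⟩
      · exact ⟨n3, n4, h.ha'⟩
      · exact ⟨h'.2.2.2.1, h'.2.2.2.2, h'.1⟩
    · rintro ⟨h4, h5, h6⟩
      by_cases hz1 : z = a
      · exact Or.inl hz1
      · by_cases hz2 : z = a'
        · exact Or.inr (Or.inl hz2)
        · exact Or.inr (Or.inr ⟨h6, hz1, hz2, h4, h5⟩)
  refine ⟨h.E1, h.E2, h.clo.co h.E1, h.exc, fun h' => h'.2.2.2.1 rfl, fun h' => h'.2.2.2.2 rfl,
    fun h' => h'.2.1 rfl, fun h' => h'.2.2.1 rfl, n6, n5, ?_, ?_, ?_, ?_⟩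
  · rw [e1]
    exact h.hA.compl h.E1
  · rw [e2]
    exact h.hD.compl h.E1
  · rw [e1]
    change (insert a (insert a' G))ᶜᶜ ∈ X
    rw [compl_compl]
    exact h.hAX
  · rw [e2]
    change ¬ (insert d (insert d' G))ᶜᶜ ∈ X
    rw [compl_compl]
    exact h.hDX

theorem sub1 (h : Sq M M✶ X G a a' d d') {S : Set α} : S ⊆ M.closure S :=
  M.subset_closure _ (by rw [h.E1]; exact subset_univ _)

theorem sub2 (h : Sq M M✶ X G a a' d d') {S : Set α} : S ⊆ M✶.closure S :=
  M✶.subset_closure _ (by rw [h.E2]; exact subset_univ _)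

/-- In the square of complements the elements `d`, `a` are parallel in the dual. -/
theorem co_type [Finite α] (h : Sq M M✶ X G a a' d d') (h1 : d ∈ M.closure (insert a G)) :
    a ∈ M✶.closure (insert d (Gc G a a' d d')) := by
  rcases h.co.mix with h2 | h2
  · exfalso
    have hd'1 : d' ∉ M.closure (insert d (Gc G a a' d d')) := h.co.swapA.na
    have hd'2 : d' ∉ M✶.closure (insert a' G) := by
      intro h3
      have h4 := h.type3 h1
      exact h.symm.swapD.swap.nla (mem_closure_of_two h.haa h.hA.2.indep h4 h3 h.ha')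
    rcases orth' (M := M) h.E1 (S := insert d (Gc G a a' d d')) (T := insert a' G) (x := d') (by
      intro z hz
      by_cases hzG : z ∈ G
      · exact Or.inr (h.sub2 (Or.inr hzG))
      by_cases hza : z = a
      · exact Or.inl (hza ▸ h2)
      by_cases hza' : z = a'
      · exact Or.inr (h.sub2 (Or.inl hza'))
      by_cases hzd : z = d
      · exact Or.inl (h.sub1 (Or.inl hzd))
      · exact Or.inl (h.sub1 (Or.inr ⟨hzG, hza, hza', hzd, hz⟩))) with h5 | h5
    · exact hd'1 h5
    · exact hd'2 h5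
  · exact h2

end Sq

end Pool.Agent.H10TE
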