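import Pool.Agent.H10TE.Compl

/-!
# No bad square when the common part has four elements
-/

open Set

namespace Pool.Agent.H10TE

variable {α : Type*}

namespace Sq

variable {M : Matroid α} {X : Set (Set α)} {G : Set α} {a a' d d' : α}

/-- An element outside the complementary corner which is none of the four elements is in `G`. -/
theorem mem_G {z : α} (hz : z ∉ Gc G a a' d d') (h1 : z ≠ a) (h2 : z ≠ a') (h3 : z ≠ d)
    (h4 : z ≠ d') : z ∈ G := by
  by_contra h
  exact hz ⟨h, h1, h2, h3, h4⟩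

/-- The rows and columns at the complementary corner, with one element of `G` in each cell. -/
theorem cells_co [Finite α] (h : Sq M M✶ X G a a' d d') (h1 : d ∈ M.closure (insert a G)) :
    (a ∈ M.closure (insert d' (Gc G a a' d d')) ∧ a' ∉ M.closure (insert d' (Gc G a a' d d')) ∧
      d ∉ M.closure (insert d' (Gc G a a' d d'))) ∧
    (a' ∈ M.closure (insert d (Gc G a a' d d')) ∧ a ∉ M.closure (insert d (Gc G a a' d d')) ∧
      d' ∉ M.closure (insert d (Gc G a a' d d'))) ∧
    (a ∈ M✶.closure (insert d (Gc G a a' d d')) ∧ a' ∉ M✶.closure (insert d (Gc G a a' d d')) ∧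
      d' ∉ M✶.closure (insert d (Gc G a a' d d'))) ∧
    (a' ∈ M✶.closure (insert d' (Gc G a a' d d')) ∧ a ∉ M✶.closure (insert d' (Gc G a a' d d')) ∧
      d ∉ M✶.closure (insert d' (Gc G a a' d d'))) ∧
    (∃ p ∈ G, p ∈ M.closure (insert d' (Gc G a a' d d')) ∧
      p ∈ M✶.closure (insert d (Gc G a a' d d')) ∧
      p ∉ M.closure (insert d (Gc G a a' d d')) ∧ p ∉ M✶.closure (insert d' (Gc G a a' d d'))) ∧
    (∃ q ∈ G, q ∈ M.closure (insert d' (Gc G a a' d d')) ∧
      q ∈ M✶.closure (insert d' (Gc G a a' d d')) ∧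
      q ∉ M.closure (insert d (Gc G a a' d d')) ∧ q ∉ M✶.closure (insert d (Gc G a a' d d'))) ∧
    (∃ r ∈ G, r ∈ M.closure (insert d (Gc G a a' d d')) ∧
      r ∈ M✶.closure (insert d (Gc G a a' d d')) ∧
      r ∉ M.closure (insert d' (Gc G a a' d d')) ∧ r ∉ M✶.closure (insert d' (Gc G a a' d d'))) ∧
    (∃ s ∈ G, s ∈ M.closure (insert d (Gc G a a' d d')) ∧
      s ∈ M✶.closure (insert d' (Gc G a a' d d')) ∧
      s ∉ M.closure (insert d' (Gc G a a' d d')) ∧ s ∉ M✶.closure (insert d (Gc G a a' d d'))) := by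
  have k := h.co.symm
  have t := h.co_type h1
  set K := Gc G a a' d d' with hK
  have t2 := k.type2 t
  have t3 := k.type3 t
  have t4 := k.type4 t
  -- memberships outside
  have u1 : d ∉ M✶.closure (insert d' K) := k.na
  have u2 : d' ∉ M✶.closure (insert d K) := k.swapA.na
  have u3 : d ∉ M.closure (insert d' K) := k.symm.na
  have u4 : d' ∉ M.closure (insert d K) := k.symm.swapA.na
  have v1 : a ∉ M✶.closure (insert a' K) := k.swap.na
  have v2 : a' ∉ M✶.closure (insert a K) := k.swap.swapA.na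
  have v3 : a ∉ M.closure (insert a' K) := k.symm.swap.na
  have v4 : a' ∉ M.closure (insert a K) := k.symm.swap.swapA.na
  have c1 : M✶.closure (insert a K) = M✶.closure (insert d K) := congr_cl t k.swap.nla
  have c2 : M.closure (insert a K) = M.closure (insert d' K) := congr_cl t2 k.symm.swap.nla
  have c3 : M.closure (insert a' K) = M.closure (insert d K) := congr_cl t3 k.symm.swap.swapA.nla
  have c4 : M✶.closure (insert a' K) = M✶.closure (insert d' K) := congr_cl t4 k.swap.swapA.nla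
  rw [c4] at v1
  rw [c1] at v2
  rw [c3] at v3
  rw [c2] at v4
  -- not in two parallel classes
  have w1 : ∀ z, z ∉ M.closure K → z ∈ M.closure (insert d K) → z ∉ M.closure (insert d' K) :=
    fun z hz h2 h3 => hz (mem_closure_of_two h.hdd k.hA.2.indep h2 h3 k.ha')
  have w2 : ∀ z, z ∉ M✶.closure K → z ∈ M✶.closure (insert d K) →
      z ∉ M✶.closure (insert d' K) :=
    fun z hz h2 h3 => hz (mem_closure_of_two h.hdd k.hA.1.indep h2 h3 k.ha')
  have w3 : ∀ z, z ∉ M.closure K → z ∈ M.closure (insert d' K) → z ∉ M.closure (insert d K) :=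
    fun z hz h2 h3 => w1 z hz h3 h2
  have w4 : ∀ z, z ∉ M✶.closure K → z ∈ M✶.closure (insert d' K) →
      z ∉ M✶.closure (insert d K) :=
    fun z hz h2 h3 => w2 z hz h3 h2
  refine ⟨⟨t2, v4, u3⟩, ⟨t3, v3, u4⟩, ⟨t, v2, u2⟩, ⟨t4, v1, u1⟩, ?_, ?_, ?_, ?_⟩
  · -- the cell of `a`
    obtain ⟨p, p1, p2, p3, p4, p5, p6, -⟩ := k.swap.exists_bar (by
      rw [c1]
      exact h.co.sub2 (Or.inl rfl))
    rw [c1] at p3
    rw [c2] at p4
    have p7 := w3 p p6 p4
    have p8 := w2 p p5 p3
    refine ⟨p, mem_G p2 p1 ?_ ?_ ?_, p4, p3, p7, p8⟩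
    · rintro rfl; exact v4 p4
    · rintro rfl; exact u3 p4
    · rintro rfl; exact u2 p3
  · -- the cell of `d'`
    obtain ⟨p, p1, p2, p3, p4, p5, p6, -⟩ := k.swapA.swapD.exists_bar t4
    have p7 := w3 p p6 p4
    have p8 := w4 p p5 p3
    refine ⟨p, mem_G p2 ?_ ?_ ?_ p1, p4, p3, p7, p8⟩
    · rintro rfl; exact v1 p3
    · rintro rfl; exact v4 p4
    · rintro rfl; exact u3 p4
  · -- the cell of `d`
    obtain ⟨p, p1, p2, p3, p4, p5, p6, -⟩ := k.exists_bar t
    have p7 := w1 p p6 p4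
    have p8 := w2 p p5 p3
    refine ⟨p, mem_G p2 ?_ ?_ p1 ?_, p4, p3, p7, p8⟩
    · rintro rfl; exact v3 p4
    · rintro rfl; exact v2 p3
    · rintro rfl; exact u2 p3
  · -- the cell of `a'`
    obtain ⟨p, p1, p2, p3, p4, p5, p6, -⟩ := k.swap.swapA.swapD.exists_bar (by
      rw [c4]
      exact h.co.sub2 (Or.inl rfl))
    rw [c4] at p3
    rw [c3] at p4
    have p7 := w1 p p6 p4
    have p8 := w4 p p5 p3
    refine ⟨p, mem_G p2 ?_ p1 ?_ ?_, p4, p3, p7, p8⟩
    · rintro rfl; exact v3 p4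
    · rintro rfl; exact u1 p3
    · rintro rfl; exact u4 p4

end Sq

/-- Four distinct members of a set with four elements are all. -/
theorem all_four [Finite α] {G : Set α} (hG : G.ncard = 4) {p q r s : α} (hp : p ∈ G) (hq : q ∈ G)
    (hr : r ∈ G) (hs : s ∈ G) (h1 : p ≠ q) (h2 : p ≠ r) (h3 : p ≠ s) (h4 : q ≠ r) (h5 : q ≠ s)
    (h6 : r ≠ s) : ∀ z ∈ G, z = p ∨ z = q ∨ z = r ∨ z = s := by
  classical
  have hsub : ({p, q, r, s} : Set α) ⊆ G := by
    rintro z (rfl | rfl | rfl | rfl) <;> assumption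
  have hc : ({p, q, r, s} : Set α).ncard = 4 := by
    rw [Set.ncard_insert_of_notMem (by simp [h1, h2, h3]) (Set.toFinite _),
      Set.ncard_insert_of_notMem (by simp [h4, h5]) (Set.toFinite _),
      Set.ncard_insert_of_notMem (by simp [h6]) (Set.toFinite _), Set.ncard_singleton]
  have := Set.eq_of_subset_of_ncard_le hsub (by omega) (Set.toFinite _)
  intro z hz
  rw [← this] at hz
  simpa using hz

/-- The bad square does not exist if `G` has four elements. -/
theorem six_aux [Finite α] {M : Matroid α} {X : Set (Set α)} {G : Set α} {a a' d d' : α}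
    (h : Sq M M✶ X G a a' d d') (h1 : d ∈ M.closure (insert a G)) (hG : G.ncard = 4) : False := by
  obtain ⟨b, hba, hbG, hb1, hb2, hb3, hb4, h'⟩ := h.exists_bar h1
  have h1' : d ∈ M.closure (insert b G) := by
    rw [congr_cl hb1 hb3]
    exact h1
  obtain ⟨⟨o1, o2, o3⟩, ⟨o4, o5, o6⟩, -, -, ⟨p, pG, p1, pc1, p3, pc2⟩, ⟨q, qG, q1, qc1, q3, qc2⟩,
    ⟨r, rG, r1, rc1, r3, rc2⟩, ⟨s, sG, s1, sc1, s3, sc2⟩⟩ := h.cells_co h1
  obtain ⟨-, -, ⟨n1, n2, n3⟩, ⟨n4, n5, n6⟩, ⟨p', pG', p1', p2', p3', p4'⟩,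
    ⟨q', qG', q1', q2', q3', q4'⟩, ⟨r', rG', r1', r2', r3', r4'⟩,
    ⟨s', sG', s1', s2', s3', s4'⟩⟩ := h'.cells_co h1'
  have hallo : ∀ z ∈ G, z = p ∨ z = q ∨ z = r ∨ z = s := by
    refine all_four hG pG qG rG sG ?_ ?_ ?_ ?_ ?_ ?_
    · rintro rfl; exact pc2 qc1
    · rintro rfl; exact p3 r1
    · rintro rfl; exact p3 s1
    · rintro rfl; exact q3 r1
    · rintro rfl; exact q3 s1
    · rintro rfl; exact rc2 sc1
  have halln : ∀ z ∈ G, z = p' ∨ z = q' ∨ z = r' ∨ z = s' := by
    refine all_four hG pG' qG' rG' sG' ?_ ?_ ?_ ?_ ?_ ?_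
    · rintro rfl; exact p4' q2'
    · rintro rfl; exact p3' r1'
    · rintro rfl; exact p3' s1'
    · rintro rfl; exact q3' r1'
    · rintro rfl; exact q3' s1'
    · rintro rfl; exact r4' s2'
  set K := Gc G a a' d d' with hK
  set K' := Gc G b a' d d' with hK'
  have haK' : a ∈ K' := ⟨h.ha, hba.symm, h.haa, h.a_ne_d, h.swapD.a_ne_d⟩
  -- (i)
  obtain ⟨z1, hz1G, hz1R, hz1C⟩ : ∃ z ∈ G, z ∉ M.closure (insert d K) ∧
      z ∉ M✶.closure (insert d K') := by
    by_contra hcon
    push Not at hcon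
    rcases orth' (M := M) h.E1 (S := insert d K) (T := insert d K') (x := d') (by
      intro z hz
      by_cases hzG : z ∈ G
      · by_cases hzR : z ∈ M.closure (insert d K)
        · exact Or.inl hzR
        · exact Or.inr (hcon z hzG hzR)
      by_cases hza : z = a
      · exact Or.inr (h.sub2 (Or.inr (hza ▸ haK')))
      by_cases hza' : z = a'
      · exact Or.inl (hza' ▸ o4)
      by_cases hzd : z = d
      · exact Or.inl (h.sub1 (Or.inl hzd))
      · exact Or.inl (h.sub1 (Or.inr ⟨hzG, hza, hza', hzd, hz⟩))) with h5 | h5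
    · exact o6 h5
    · exact n3 h5
  -- (ii)
  obtain ⟨z2, hz2G, hz2R, hz2C⟩ : ∃ z ∈ G, z ∉ M.closure (insert d' K) ∧
      z ∉ M✶.closure (insert d K') := by
    by_contra hcon
    push Not at hcon
    rcases orth' (M := M) h.E1 (S := insert d' K) (T := insert d K') (x := a') (by
      intro z hz
      by_cases hzG : z ∈ G
      · by_cases hzR : z ∈ M.closure (insert d' K)
        · exact Or.inl hzR
        · exact Or.inr (hcon z hzG hzR)
      by_cases hza : z = a
      · exact Or.inl (hza ▸ o1)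
      by_cases hzd : z = d
      · exact Or.inr (h.sub2 (Or.inl hzd))
      by_cases hzd' : z = d'
      · exact Or.inl (h.sub1 (Or.inl hzd'))
      · exact Or.inl (h.sub1 (Or.inr ⟨hzG, hza, hz, hzd, hzd'⟩))) with h5 | h5
    · exact o2 h5
    · exact n2 h5
  have hz12 : z1 ≠ z2 := by
    rintro rfl
    rcases hallo z1 hz1G with rfl | rfl | rfl | rfl
    · exact hz2R p1
    · exact hz2R q1
    · exact hz1R r1
    · exact hz1R s1
  have hz1' : z1 = q' ∨ z1 = s' := by
    rcases halln z1 hz1G with rfl | rfl | rfl | rfl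
    · exact absurd p2' hz1C
    · exact Or.inl rfl
    · exact absurd r2' hz1C
    · exact Or.inr rfl
  have hz2' : z2 = q' ∨ z2 = s' := by
    rcases halln z2 hz2G with rfl | rfl | rfl | rfl
    · exact absurd p2' hz2C
    · exact Or.inl rfl
    · exact absurd r2' hz2C
    · exact Or.inr rfl
  have hz1C2 : z1 ∈ M✶.closure (insert d' K') := by
    rcases hz1' with rfl | rfl
    · exact q2'
    · exact s2'
  have hother : ∀ z ∈ G, z ≠ z1 → z ≠ z2 → z ∉ M✶.closure (insert d' K') := by
    intro z hz h2 h3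
    rcases halln z hz with rfl | rfl | rfl | rfl
    · exact p4'
    · exfalso
      rcases hz1' with rfl | rfl
      · exact h2 rfl
      · rcases hz2' with rfl | rfl
        · exact h3 rfl
        · exact hz12 rfl
    · exact r4'
    · exfalso
      rcases hz1' with rfl | rfl
      · rcases hz2' with rfl | rfl
        · exact hz12 rfl
        · exact h3 rfl
      · exact h2 rfl
  -- the other element of the first row
  obtain ⟨x, hxG, hx1, hx2, hx3⟩ : ∃ x ∈ G, x ≠ z1 ∧ x ∈ M.closure (insert d' K) ∧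
      ∀ z ∈ G, z ≠ x → z ≠ z1 → z ∈ M.closure (insert d K) := by
    rcases hallo z1 hz1G with h2 | h2 | h2 | h2
    · refine ⟨q, qG, ?_, q1, ?_⟩
      · rintro h3
        rw [h3] at qc2
        rw [← h3] at h2
        rw [h2] at qc1
        exact pc2 qc1
      · intro z hz h3 h4
        rcases hallo z hz with h5 | h5 | h5 | h5
        · exact absurd (h5.trans h2.symm) h4
        · exact absurd h5 h3
        · exact h5 ▸ r1
        · exact h5 ▸ s1
    · refine ⟨p, pG, ?_, p1, ?_⟩
      · rintro h3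
        rw [h3, h2] at pc1
        exact qc2 pc1
      · intro z hz h3 h4
        rcases hallo z hz with h5 | h5 | h5 | h5
        · exact absurd h5 h3
        · exact absurd (h5.trans h2.symm) h4
        · exact h5 ▸ r1
        · exact h5 ▸ s1
    · exact absurd (h2 ▸ r1) hz1R
    · exact absurd (h2 ▸ s1) hz1R
  have hx4 : x ≠ z2 := by
    rintro rfl
    exact hz2R hx2
  have hx5 : x ∉ M✶.closure (insert d' K') := hother x hxG hx1 hx4
  have hx6 : x ∉ M.closure (insert d K) := by
    rcases hallo x hxG with h2 | h2 | h2 | h2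
    · rw [h2]; exact p3
    · rw [h2]; exact q3
    · rw [h2] at hx2; exact absurd hx2 r3
    · rw [h2] at hx2; exact absurd hx2 s3
  -- (iii)
  rcases orth' (M := M) h.E1 (S := insert d K) (T := insert d' K') (x := x) (by
      intro z hz
      by_cases hzG : z ∈ G
      · by_cases hzz : z = z1
        · exact Or.inr (hzz ▸ hz1C2)
        · exact Or.inl (hx3 z hzG hz hzz)
      by_cases hza : z = a
      · exact Or.inr (h.sub2 (Or.inr (hza ▸ haK')))
      by_cases hza' : z = a'
      · exact Or.inl (hza' ▸ o4)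
      by_cases hzd : z = d
      · exact Or.inl (h.sub1 (Or.inl hzd))
      by_cases hzd' : z = d'
      · exact Or.inr (h.sub2 (Or.inl hzd'))
      · exact Or.inl (h.sub1 (Or.inr ⟨hzG, hza, hza', hzd, hzd'⟩))) with h5 | h5
  · exact hx6 h5
  · exact hx5 h5

/-- There is no bad square if `G` has four elements. -/
theorem six [Finite α] {M : Matroid α} {X : Set (Set α)} {G : Set α} {a a' d d' : α}
    (h : Sq M M✶ X G a a' d d') (hG : G.ncard = 4) : False := by
  rcases h.mix with h1 | h1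
  · exact six_aux h h1 hG
  · exact six_aux h.swapD (h.symm.type3 h1) hG

end Pool.Agent.H10TE
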